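import Mathlib

set_option autoImplicit false

open Finset Filter

namespace Pool.Agent.Results.MP_00ae1c_co.Larger

/-- An `(n, t, w, e)`-LPECC code with `b` classes; a binary word is given by its support, so the
Hamming distance is the size of the symmetric difference. -/
def IsCode (n t w e b : ℕ) : Prop :=
  ∃ P : Fin b → Set (Finset (Fin n)), (∀ i, (P i).Nonempty) ∧
    (∀ T : Finset (Fin n), T.card = t → ∀ i, ∃ x ∈ P i, Disjoint x T) ∧
    (∀ i, ∀ x ∈ P i, x.card ≤ w) ∧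
    ∀ i j, i ≠ j → ∀ x ∈ P i, ∀ y ∈ P j, 2 * e + 1 ≤ (symmDiff x y).card

/-- The largest size of an `(n, t, w, e)`-LPECC code. -/
noncomputable def C (n t w e : ℕ) : ℕ := sSup {b | IsCode n t w e b}

def Pack (k q : ℕ) (X I : Type) : Prop :=
  ∃ B : I → Fin q → Finset X, (∀ c j, (B c j).card = k) ∧
    (∀ c j j', j ≠ j' → Disjoint (B c j) (B c j')) ∧
    ∀ c c' j j', c ≠ c' → ∀ x ∈ B c j, ∀ y ∈ B c j, x ∈ B c' j' → y ∈ B c' j' → x = y

lemma Pack.mono {k q : ℕ} {X I Y J : Type} (h : Pack k q X I) (f : X ↪ Y) (g : J ↪ I) :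
    Pack k q Y J := by
  obtain ⟨B, h1, h2, h3⟩ := h
  refine ⟨fun c j => (B (g c) j).map f, fun c j => by simp [h1],
    fun c j j' h => (disjoint_map f).2 (h2 _ _ _ h), fun c c' j j' h x hx y hy hx' hy' => ?_⟩
  obtain ⟨x, hx1, rfl⟩ := mem_map.1 hx
  obtain ⟨y, hy1, rfl⟩ := mem_map.1 hy
  rw [h3 _ _ j j' (g.injective.ne h) x hx1 y hy1 ((mem_map' f).1 hx') ((mem_map' f).1 hy')]

lemma Pack.card {k q : ℕ} {X I : Type} [Fintype X] [Fintype I] (h : Pack k q X I) {n N : ℕ}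
    (h1 : Fintype.card X ≤ n) (h2 : N ≤ Fintype.card I) : Pack k q (Fin n) (Fin N) := by
  obtain ⟨f⟩ := Function.Embedding.nonempty_of_card_le (α := X) (β := Fin n) (by simpa using h1)
  obtain ⟨g⟩ := Function.Embedding.nonempty_of_card_le (α := Fin N) (β := I) (by simpa using h2)
  exact h.mono f g

lemma td {w q m : ℕ} [NeZero m] {I : Type} (hm : m.Coprime w.factorial)
    (h : Pack (w + 1) q (ZMod m) I) :
    Pack (w + 1) q (Fin (w + 1) × ZMod m) ((ZMod m × Fin (m / q)) ⊕ (Fin (w + 1) × I)) := by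
  classical
  obtain ⟨B, h1, h2, h3⟩ := h
  have ha : ∀ (g g' : Fin (m / q)) (j j' : Fin q),
      ((g * q + j : ℕ) : ZMod m) = ((g' * q + j' : ℕ) : ZMod m) → g = g' ∧ j = j' := by
    intro g g' j j' h
    have hlt : ∀ (g : Fin (m / q)) (j : Fin q), g * q + j < m := fun g j => by
      have h4 : (g + 1) * q ≤ m / q * q := Nat.mul_le_mul_right q g.2
      have := Nat.div_mul_le_self m q
      have := j.2
      nlinarith
    rw [ZMod.natCast_eq_natCast_iff', Nat.mod_eq_of_lt (hlt g j), Nat.mod_eq_of_lt (hlt g' j')] at h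
    have h5 := congrArg (· % q) h
    simp only [Nat.mul_add_mod_self_right, Nat.mod_eq_of_lt j.2, Nat.mod_eq_of_lt j'.2] at h5
    rw [h5, add_left_inj] at h
    exact ⟨Fin.ext (Nat.eq_of_mul_eq_mul_right j.pos h), Fin.ext h5⟩
  have hu : ∀ (i i' : Fin (w + 1)) (z : ZMod m), i < i' →
      (((i' : ℕ) : ZMod m) - ((i : ℕ) : ZMod m)) * z = 0 → z = 0 := by
    intro i i' z h hz
    have h4 : (i : ℕ) < i' := h
    have := i'.2
    rw [← Nat.cast_sub h4.le] at hz
    exact ((ZMod.isUnit_iff_coprime _ _).2 (Nat.Coprime.coprime_dvd_right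
      (Nat.dvd_factorial (by omega) (by omega)) hm).symm).mul_right_eq_zero.1 hz
  refine ⟨fun c j => match c with
    | Sum.inl (b, g) => univ.image fun i : Fin (w + 1) =>
        (i, ((g * q + j : ℕ) : ZMod m) + ((i : ℕ) : ZMod m) * b)
    | Sum.inr (i, c) => (B c j).image fun x => (i, x), ?_, ?_, ?_⟩
  · rintro (⟨b, g⟩ | ⟨i, c⟩) j
    · rw [card_image_of_injective _ fun i i' h => (Prod.ext_iff.1 h).1]
      simp
    · rw [card_image_of_injective _ fun i i' h => (Prod.ext_iff.1 h).2, h1]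
  · rintro (⟨b, g⟩ | ⟨i, c⟩) j j' h
    · simp only [disjoint_left, mem_image, mem_univ, true_and, not_exists]
      rintro _ ⟨i, rfl⟩ i' h4
      obtain ⟨rfl, h5⟩ := Prod.ext_iff.1 h4
      exact h (ha _ _ _ _ (add_right_cancel h5)).2.symm
    · exact (disjoint_image fun i i' h => (Prod.ext_iff.1 h).2).2 (h2 _ _ _ h)
  · rintro (⟨b, g⟩ | ⟨i, c⟩) (⟨b', g'⟩ | ⟨i', c'⟩) j j' h ⟨x1, x2⟩ hx ⟨y1, y2⟩ hy hx' hy' <;>
      simp only [mem_image, mem_univ, true_and, Prod.mk.injEq, exists_eq_left,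
        exists_eq_right_right] at hx hy hx' hy' ⊢
    · have h4 : x1 = y1 := by
        by_contra h4
        have h5 : b - b' = 0 := by
          rcases lt_or_gt_of_ne h4 with h5 | h5
          · exact hu _ _ _ h5 (by linear_combination hy - hy' - hx + hx')
          · exact hu _ _ _ h5 (by linear_combination hx - hx' - hy + hy')
        obtain rfl := sub_eq_zero.1 h5
        exact h (by rw [(ha _ _ _ _ (add_right_cancel (hx.trans hx'.symm))).1])
      subst h4
      exact ⟨rfl, hx.symm.trans hy⟩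
    · obtain rfl := hx'.2.symm.trans hy'.2
      exact ⟨rfl, hx.symm.trans hy⟩
    · obtain rfl := hx.2.symm.trans hy.2
      exact ⟨rfl, hx'.symm.trans hy'⟩
    · obtain rfl := hx.2.trans hx'.2.symm
      exact ⟨hx.2.symm.trans hy.2, h3 c c' j j' (by rintro rfl; exact h rfl) _ hx.1 _ hy.1
        hx'.1 hy'.1⟩

lemma rec1 {w q m N n : ℕ} (h0 : 0 < m) (hm : m.Coprime w.factorial) (hn : (w + 1) * m ≤ n)
    (h : Pack (w + 1) q (Fin m) (Fin N)) :
    Pack (w + 1) q (Fin n) (Fin (m * (m / q) + (w + 1) * N)) := by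
  have : NeZero m := ⟨h0.ne'⟩
  exact (td hm (h.mono (ZMod.finEquiv m).toEquiv.toEmbedding (Function.Embedding.refl _))).card
    (by simpa using hn) (by simp)

lemma rec2 {w q : ℕ} (hq : 0 < q) {a b : ℝ} (hb : 0 ≤ b)
    (hab : b * (w + 1) ^ 2 < 1 / q + (w + 1) * a)
    (h : ∀ᶠ m : ℕ in atTop, ∃ N : ℕ, a * m ^ 2 ≤ N ∧ Pack (w + 1) q (Fin m) (Fin N)) :
    ∀ᶠ n : ℕ in atTop, ∃ N : ℕ, b * n ^ 2 ≤ N ∧ Pack (w + 1) q (Fin n) (Fin N) := by
  obtain ⟨M, hM⟩ := eventually_atTop.1 h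
  set F := w.factorial
  have hF : 0 < F := w.factorial_pos
  set s : ℝ := b * (w + 1) ^ 2
  have hs : 0 ≤ s := by positivity
  set g : ℝ := 1 / q + (w + 1) * a
  obtain ⟨K, hK⟩ := exists_nat_ge ((1 + s * (2 * F + F ^ 2)) / (g - s))
  refine eventually_atTop.2 ⟨(w + 1) * (M + K + F + 1), fun n hn => ?_⟩
  have h1 : M + K + F + 1 ≤ n / (w + 1) := (Nat.le_div_iff_mul_le (by omega)).2 (by linarith)
  have h2 := Nat.div_add_mod (n / (w + 1) - 1) F
  have h3 := Nat.mod_lt (n / (w + 1) - 1) hF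
  set m := F * ((n / (w + 1) - 1) / F) + 1 with hm
  have h4 := Nat.mul_div_le n (w + 1)
  have h5 := Nat.lt_mul_div_succ n (show 0 < w + 1 by omega)
  obtain ⟨N, h6, h7⟩ := hM m (by omega)
  refine ⟨_, ?_, rec1 (by omega) (by simp [hm, F]) (le_trans (Nat.mul_le_mul_left _ (by omega)) h4)
    h7⟩
  have h8 : (n : ℝ) ≤ (w + 1) * (m + F) := by
    have : n ≤ (w + 1) * (m + F) := h5.le.trans (Nat.mul_le_mul_left _ (by omega))
    exact_mod_cast this
  have h9 : (m : ℝ) * (1 / q) - 1 ≤ (m / q : ℕ) := by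
    have h10 : ((m : ℕ) : ℝ) ≤ q * ((m / q : ℕ) + 1) := by
      exact_mod_cast (Nat.lt_mul_div_succ m hq).le
    have : (0 : ℝ) < q := by exact_mod_cast hq
    rw [mul_one_div, sub_le_iff_le_add, div_le_iff₀ this]
    linarith
  have h10 : (K : ℝ) + 1 ≤ m := by exact_mod_cast (show K + 1 ≤ m by omega)
  rw [div_le_iff₀ (by linarith)] at hK
  have hK0 : (0 : ℝ) ≤ K := by positivity
  have h11 : b * (n : ℝ) ^ 2 ≤ s * (m + F) ^ 2 := by
    rw [mul_assoc, ← mul_pow]
    gcongr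
  have h12 : (1 + s * (2 * F + F ^ 2)) * m ≤ (g - s) * m * m := by
    gcongr
    nlinarith
  have h13 : s * F ^ 2 * 1 ≤ s * F ^ 2 * m := by gcongr; linarith
  have h14 : (m : ℝ) * (m * (1 / q) - 1) ≤ m * (m / q : ℕ) := by gcongr
  have h15 : ((w : ℝ) + 1) * (a * m ^ 2) ≤ (w + 1) * N := by gcongr
  push_cast
  have h16 : g * m * m = m * (m * (1 / q)) + (w + 1) * (a * m ^ 2) := by simp only [g]; ring
  nlinarith

lemma code {n t w q N : ℕ} (hw : 2 ≤ w) (ht : t < 2 * q) (h : Pack (w + 1) q (Fin n) (Fin N)) :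
    IsCode n t w (w - 2) N := by
  obtain ⟨B, h1, h2, h3⟩ := h
  refine ⟨fun c => {x | x.card = w ∧ ∃ j, x ⊆ B c j}, fun c => ?_, fun T hT c => ?_,
    fun c x hx => hx.1.le, ?_⟩
  · obtain ⟨x, h4, h5⟩ := exists_subset_card_eq (s := B c ⟨0, by omega⟩) (n := w) (by simp [h1])
    exact ⟨x, h5, _, h4⟩
  · obtain ⟨j, hj⟩ : ∃ j, (B c j ∩ T).card ≤ 1 := by
      by_contra h4
      push Not at h4
      have h5 := card_le_card (s := univ.biUnion fun j => B c j ∩ T) (t := T)
        (biUnion_subset.2 fun j _ => inter_subset_right)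
      rw [card_biUnion fun j _ j' _ h => (h2 c j j' h).mono inter_subset_left inter_subset_left]
        at h5
      have h6 := card_nsmul_le_sum univ (fun j => (B c j ∩ T).card) 2 fun j _ => h4 j
      simp at h6
      omega
    have h4 := card_sdiff_add_card_inter (B c j) T
    obtain ⟨x, h5, h6⟩ := exists_subset_card_eq (s := B c j \ T) (n := w) (by
      rw [h1] at h4; omega)
    exact ⟨x, ⟨h6, j, h5.trans sdiff_subset⟩, sdiff_disjoint.mono_left h5⟩
  · rintro c c' h x ⟨hx, j, hj⟩ y ⟨hy, j', hj'⟩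
    have h4 : (x ∩ y).card ≤ 1 := card_le_one.2 fun a ha b hb =>
      h3 c c' j j' h a (hj (mem_inter.1 ha).1) b (hj (mem_inter.1 hb).1) (hj' (mem_inter.1 ha).2)
        (hj' (mem_inter.1 hb).2)
    have h5 := card_sdiff_add_card_inter x y
    have h6 := card_sdiff_add_card_inter y x
    rw [inter_comm] at h6
    rw [symmDiff_def, sup_eq_union, card_union_of_disjoint disjoint_sdiff_sdiff]
    omega

lemma le_C {n t w e N : ℕ} (h : IsCode n t w e N) : N ≤ C n t w e := by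
  refine le_csSup ⟨2 ^ n, ?_⟩ h
  rintro b ⟨P, h1, -, -, h4⟩
  choose f hf using h1
  have : Function.Injective f := fun i j hij => by
    by_contra h
    have := h4 i j h _ (hf i) _ (hf j)
    simp [hij] at this
  simpa using Fintype.card_le_of_injective f this

/-- For all `t ≥ 1`, `w ≥ 4` in the stated range, `C(n,t,w,w-2) / n²` eventually exceeds the
conjectured limit by a fixed positive amount. -/
theorem result (t w : ℕ) (ht : 1 ≤ t) (hw : 4 ≤ w)
    (h : (t + 1) * w * (w - 1) < (w + t) * (w + t - 1)) :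
    ∃ ε : ℝ, 0 < ε ∧ ∀ᶠ n : ℕ in atTop,
      (1 / ((t + 1) * w * (w - 1) : ℝ) + ε) * (n : ℝ) ^ 2 ≤ C n t w (w - 2) := by
  set q := t / 2 + 1
  have key : q * (w + 1) ^ 3 < (w + 2) * ((t + 1) * w * (w - 1)) := by
    obtain ⟨v, rfl⟩ := Nat.exists_eq_add_of_le hw
    rw [show 4 + v - 1 = 3 + v by omega] at h ⊢
    rw [show 4 + v + t - 1 = 3 + v + t by omega] at h
    have h1 : 6 + v ≤ t := by
      by_contra h1
      have h2 : t ≤ 5 + v := by omega
      nlinarith [Nat.mul_le_mul_left t h2, Nat.zero_le (t * v * v), Nat.zero_le (t * v)]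
    obtain ⟨u, rfl⟩ := Nat.exists_eq_add_of_le h1
    have h2 : 2 * q ≤ 6 + v + u + 2 := by omega
    have h3 := Nat.mul_le_mul_right ((4 + v + 1) ^ 3) h2
    have h4 : (6 + v + u + 2) * (4 + v + 1) ^ 3 <
        2 * ((4 + v + 2) * ((6 + v + u + 1) * (4 + v) * (3 + v))) := by
      ring_nf
      omega
    nlinarith
  have hq : (0 : ℝ) < q := by positivity
  have hw' : (4 : ℝ) ≤ w := by exact_mod_cast hw
  set D : ℝ := (t + 1) * w * (w - 1) with hD
  have hD0 : 0 < D := mul_pos (by positivity) (by linarith)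
  have key' : (q : ℝ) * (w + 1) ^ 3 < (w + 2) * D := by
    have : ((q * (w + 1) ^ 3 : ℕ) : ℝ) < ((w + 2) * ((t + 1) * w * (w - 1)) : ℕ) := by
      exact_mod_cast key
    push_cast [Nat.cast_sub (show 1 ≤ w by omega)] at this
    exact this
  have h1 : 1 / D < (w + 2) / (q * (w + 1) ^ 3) := by
    rw [div_lt_div_iff₀ hD0 (by positivity)]
    linarith
  obtain ⟨b, hb1, hb2⟩ := _root_.exists_between h1
  have hb0 : 0 < b := lt_trans (by positivity) hb1
  have h2 : max (0 : ℝ) ((b * (w + 1) ^ 2 - 1 / q) / (w + 1)) < 1 / (q * (w + 1) ^ 2) := by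
    refine max_lt (by positivity) ?_
    rw [lt_div_iff₀ (by positivity)] at hb2
    rw [div_lt_div_iff₀ (by positivity) (by positivity)]
    have : (b * (w + 1) ^ 2 - 1 / q) * (q * (w + 1) ^ 2) =
        (w + 1) * (b * (q * (w + 1) ^ 3)) - (w + 1) ^ 2 := by field_simp
    rw [this]
    nlinarith
  obtain ⟨a, ha1, ha2⟩ := _root_.exists_between h2
  rw [max_lt_iff, div_lt_iff₀ (by positivity)] at ha1
  have h3 := rec2 (w := w) (q := q) (a := 0) (b := a) (by omega) ha1.1.le (by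
      rw [lt_div_iff₀ (by positivity)] at ha2
      rw [mul_zero, add_zero, lt_div_iff₀ hq]
      linarith)
    (Eventually.of_forall fun m => ⟨0, by simp, fun c => c.elim0, by simp, by simp, by simp⟩)
  have h4 := rec2 (by omega) hb0.le (by linarith [ha1.2]) h3
  refine ⟨b - 1 / D, by linarith, h4.mono ?_⟩
  rintro n ⟨N, h5, h6⟩
  have h7 : (N : ℝ) ≤ C n t w (w - 2) := by
    exact_mod_cast le_C (code (by omega) (by omega) h6)
  rw [add_sub_cancel]
  linarith

end Pool.Agent.Results.MP_00ae1c_co.Larger
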